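import Mathlib

namespace Pool.Agent.H.MP_fa645e_co

variable {V : Type} (A : V → V → Prop)

def N1 (v : V) : Set V := {w | A v w}
def N2 (v : V) : Set V := {w | w ≠ v ∧ ¬ A v w ∧ ∃ u, A v u ∧ A u w}
def M1 (X : Set V) (v : V) : Set V := {w | w ∈ X ∧ A v w}
def M2 (X : Set V) (v : V) : Set V := {w | w ∈ X ∧ w ≠ v ∧ ¬ A v w ∧ ∃ u ∈ X, A v u ∧ A u w}
def bd (X : Set V) : Set V := {w | w ∉ X ∧ ∃ u ∈ X, A u w}

variable {A}

theorem out_fin (hfin : ∀ v, (N1 A v).Finite) {X : Set V} (hX : X.Finite) :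
    {w | ∃ u ∈ X, A u w}.Finite := by
  refine (hX.biUnion (fun u _ => hfin u)).subset ?_
  rintro w ⟨u, hu, h⟩
  exact Set.mem_biUnion hu h

theorem bd_fin (hfin : ∀ v, (N1 A v).Finite) {X : Set V} (hX : X.Finite) : (bd A X).Finite :=
  (out_fin hfin hX).subset fun _ h => h.2

theorem N2_fin (hfin : ∀ v, (N1 A v).Finite) (v : V) : (N2 A v).Finite :=
  (out_fin hfin (hfin v)).subset fun _ h => h.2.2

theorem step (hfin : ∀ v, (N1 A v).Finite) {X : Set V} (hX : X.Finite) {v : V} (hv : v ∈ X)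
    {γ : ℝ} (hγ : γ ≤ 1) (hg : γ * ((M1 A X v).ncard : ℝ) ≤ (M2 A X v).ncard)
    (hb : ((N2 A v).ncard : ℝ) < γ * (N1 A v).ncard) :
    (bd A (X ∪ N1 A v)).ncard < (bd A X).ncard := by
  set T : Set V := N1 A v \ X with hT
  set U : Set V := {w | w ∉ X ∧ w ∉ bd A X ∧ ∃ t ∈ T, A t w} with hU
  have hTf : T.Finite := (hfin v).subset Set.sdiff_subset
  have hUf : U.Finite := (out_fin hfin hTf).subset fun _ h => h.2.2
  have hbf := bd_fin hfin hX
  have hTb : T ⊆ bd A X := fun t ht => ⟨ht.2, v, hv, ht.1⟩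
  have h1 : bd A (X ∪ N1 A v) ⊆ (bd A X \ T) ∪ U := by
    rintro w ⟨hw, u, hu, huw⟩
    have hwX : w ∉ X := fun h => hw (Or.inl h)
    have hwN : w ∉ N1 A v := fun h => hw (Or.inr h)
    by_cases hb' : w ∈ bd A X
    · exact Or.inl ⟨hb', fun h => hwN h.1⟩
    · refine Or.inr ⟨hwX, hb', u, ⟨?_, ?_⟩, huw⟩
      · rcases hu with hu | hu
        · exact absurd ⟨hwX, u, hu, huw⟩ hb'
        · exact hu
      · intro hu'
        exact hb' ⟨hwX, u, hu', huw⟩
  have h2 : M2 A X v ∪ U ⊆ N2 A v := by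
    rintro w (⟨-, h1, h2, u, -, h3⟩ | ⟨h1, h2, t, ht, h3⟩)
    · exact ⟨h1, h2, u, h3⟩
    · refine ⟨fun h => h1 (h ▸ hv), fun h => h2 ⟨h1, v, hv, h⟩, t, ht.1, h3⟩
  have hM2f : (M2 A X v).Finite := hX.subset fun _ h => h.1
  have hM1f : (M1 A X v).Finite := hX.subset fun _ h => h.1
  have h3 : (M2 A X v ∪ U).ncard = (M2 A X v).ncard + U.ncard :=
    Set.ncard_union_eq (Set.disjoint_left.2 fun w h h' => h'.1 h.1) hM2f hUf
  have h4 : (M2 A X v ∪ U).ncard ≤ (N2 A v).ncard := Set.ncard_le_ncard h2 (N2_fin hfin v)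
  have h5 : N1 A v = M1 A X v ∪ T := by
    ext w
    constructor
    · intro h
      by_cases hw : w ∈ X
      · exact Or.inl ⟨hw, h⟩
      · exact Or.inr ⟨h, hw⟩
    · rintro (h | h)
      · exact h.2
      · exact h.1
  have h6 : (N1 A v).ncard = (M1 A X v).ncard + T.ncard := by
    conv_lhs => rw [h5]
    exact Set.ncard_union_eq (Set.disjoint_left.2 fun w h h' => h'.2 h.1) hM1f hTf
  have h7 : U.ncard < T.ncard := by
    have e1 : ((M2 A X v).ncard : ℝ) + U.ncard ≤ (N2 A v).ncard := by exact_mod_cast h3 ▸ h4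
    have e2 : ((N1 A v).ncard : ℝ) = (M1 A X v).ncard + T.ncard := by exact_mod_cast h6
    have e3 : γ * (T.ncard : ℝ) ≤ T.ncard := by
      have : (0 : ℝ) ≤ T.ncard := Nat.cast_nonneg _
      nlinarith
    have e4 : (U.ncard : ℝ) < T.ncard := by
      rw [e2, mul_add] at hb
      linarith
    exact_mod_cast e4
  have h8 : (bd A (X ∪ N1 A v)).ncard ≤ (bd A X \ T).ncard + U.ncard :=
    (Set.ncard_le_ncard h1 ((hbf.subset Set.sdiff_subset).union hUf)).trans (Set.ncard_union_le _ _)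
  have h9 : (bd A X \ T).ncard + T.ncard = (bd A X).ncard :=
    Set.ncard_sdiff_add_ncard_of_subset hTb hbf
  omega

/-- reachable from `x` by a walk with at most `j` arcs -/
def R (A : V → V → Prop) (x : V) (j : ℕ) (y : V) : Prop :=
  ∃ m : ℕ, m ≤ j ∧ ∃ p : Fin (m + 1) → V, p 0 = x ∧ (∀ i : Fin m, A (p i.castSucc) (p i.succ)) ∧
    p (Fin.last m) = y

theorem R_zero (x : V) : R A x 0 x := ⟨0, le_rfl, fun _ => x, rfl, fun i => i.elim0, rfl⟩

theorem R_mono {x y : V} {i j : ℕ} (h : R A x i y) (hij : i ≤ j) : R A x j y := by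
  obtain ⟨m, hm, p⟩ := h
  exact ⟨m, hm.trans hij, p⟩

theorem R_step {x y z : V} {i : ℕ} (h : R A x i y) (hyz : A y z) : R A x (i + 1) z := by
  obtain ⟨m, hm, p, h0, hp, hl⟩ := h
  refine ⟨m + 1, by omega, Fin.snoc p z, ?_, ?_, by simp⟩
  · rw [← h0]
    exact Fin.snoc_castSucc (α := fun _ => V) z p 0
  · intro i
    refine Fin.lastCases ?_ (fun k => ?_) i
    · rw [Fin.snoc_castSucc, Fin.succ_last, Fin.snoc_last, hl]
      exact hyz
    · rw [Fin.snoc_castSucc, Fin.succ_castSucc, Fin.snoc_castSucc]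
      exact hp k

theorem main_aux (hfin : ∀ v, (N1 A v).Finite) {γ : ℝ} (hγ : γ ≤ 1) (x : V) :
    ∀ (n j : ℕ) (X : Set V), X.Finite → x ∈ X → (bd A X).ncard ≤ n → (∀ y ∈ X, R A x j y) →
      (∃ g, R A x (j + n) g ∧ γ * ((N1 A g).ncard : ℝ) ≤ (N2 A g).ncard) ∨
      ∃ Y : Set V, Y.Finite ∧ x ∈ Y ∧ 2 * Y.ncard ≤ 2 * X.ncard + n * (n + 1) ∧
        ∀ v ∈ Y, ((M2 A Y v).ncard : ℝ) < γ * (M1 A Y v).ncard := by
  intro n
  induction n with
  | zero =>
    intro j X hX hx hb hR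
    by_cases h : ∀ v ∈ X, ((M2 A X v).ncard : ℝ) < γ * (M1 A X v).ncard
    · exact Or.inr ⟨X, hX, hx, by omega, h⟩
    · push Not at h
      obtain ⟨v, hv, hg⟩ := h
      refine Or.inl ⟨v, hR v hv, ?_⟩
      by_contra hc
      have := step hfin hX hv hγ hg (not_le.1 hc)
      omega
  | succ n ih =>
    intro j X hX hx hb hR
    by_cases h : ∀ v ∈ X, ((M2 A X v).ncard : ℝ) < γ * (M1 A X v).ncard
    · exact Or.inr ⟨X, hX, hx, by omega, h⟩
    · push Not at h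
      obtain ⟨v, hv, hg⟩ := h
      by_cases hc : γ * ((N1 A v).ncard : ℝ) ≤ (N2 A v).ncard
      · exact Or.inl ⟨v, R_mono (hR v hv) (by omega), hc⟩
      · have hs := step hfin hX hv hγ hg (not_le.1 hc)
        have hsub : X ∪ N1 A v ⊆ X ∪ bd A X := by
          rintro w (hw | hw)
          · exact Or.inl hw
          · by_cases hwX : w ∈ X
            · exact Or.inl hwX
            · exact Or.inr ⟨hwX, v, hv, hw⟩
        have hc1 : (X ∪ N1 A v).ncard ≤ X.ncard + (bd A X).ncard :=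
          (Set.ncard_le_ncard hsub (hX.union (bd_fin hfin hX))).trans (Set.ncard_union_le _ _)
        rcases ih (j + 1) (X ∪ N1 A v) (hX.union (hfin v)) (Or.inl hx) (by omega) (by
          rintro y (hy | hy)
          · exact R_mono (hR y hy) (by omega)
          · exact R_step (hR v hv) hy) with ⟨g, h1, h2⟩ | ⟨Y, h1, h2, h3, h4⟩
        · exact Or.inl ⟨g, R_mono h1 (by omega), h2⟩
        · refine Or.inr ⟨Y, h1, h2, ?_, h4⟩
          nlinarith

theorem main (hfin : ∀ v, (N1 A v).Finite) {γ : ℝ} (hγ : γ ≤ 1) (x : V) :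
    (∃ g, R A x (N1 A x).ncard g ∧ γ * ((N1 A g).ncard : ℝ) ≤ (N2 A g).ncard) ∨
      ∃ Y : Finset V, x ∈ Y ∧ 2 * Y.card ≤ (N1 A x).ncard * ((N1 A x).ncard + 1) + 2 ∧
        ∀ v ∈ Y, ((M2 A (Y : Set V) v).ncard : ℝ) < γ * (M1 A (Y : Set V) v).ncard := by
  have hb : (bd A {x}).ncard ≤ (N1 A x).ncard := by
    refine Set.ncard_le_ncard ?_ (hfin x)
    rintro w ⟨-, u, hu, h⟩
    rw [Set.mem_singleton_iff] at hu
    exact hu ▸ h
  rcases main_aux hfin hγ x _ 0 {x} (Set.finite_singleton x) rfl hb (by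
    intro y hy
    rw [Set.mem_singleton_iff] at hy
    rw [hy]
    exact R_zero x) with ⟨g, h1, h2⟩ | ⟨Y, h1, h2, h3, h4⟩
  · exact Or.inl ⟨g, by simpa using h1, h2⟩
  · refine Or.inr ⟨h1.toFinset, by simpa using h2, ?_, ?_⟩
    · rw [← Set.ncard_eq_toFinset_card Y h1]
      rw [Set.ncard_singleton] at h3
      omega
    · intro v hv
      simpa using h4 v (by simpa using hv)

end Pool.Agent.H.MP_fa645e_co
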